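import Pool.Agent.Work.MP_499dc6_lc.Bd.B10

/-!
# Depth three circuits for the permanent: final assembly with several products per term
-/

namespace Pool.Agent.Work.MP_499dc6_lc.D3

open MvPolynomial Equiv
open Pool.Agent.Work.MP_499dc6_lc.CD

/-- The eight facts needed for the upper bound. -/
structure UpFacts : Prop where
  h1 : S_LogBi
  h2 : S_Span2
  h4 : S_FacBB
  h5 : S_BiBB
  h6 : S_TypeSum
  h7 : S_Large
  h8 : S_TypeS
  h9 : S_TypeL

/-- A polynomial in `p` products of values of polynomials at affine forms. -/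
theorem term_multi (hU : UpFacts) (hAf : S_Affine) {Y Z : Type} [Fintype Y] [Fintype Z]
    (K : Type) [Field K] [CharZero K] (w k t p D r : ℕ) (Q : MvPolynomial (Fin p) K)
    (F : Fin p → Fin D → MvPolynomial (Fin r) K)
    (l : Fin p → Fin D → Fin r → MvPolynomial (Y ⊕ Z) K) (hp : 1 ≤ p)
    (hD : 1 ≤ D) (hr : 1 ≤ r) (hk : 1 ≤ k) (ht : 32 * t ≤ w) (hDr : 4000 * (Real.log D + r) ≤ t)
    (hl : ∀ i j a, (l i j a).totalDegree ≤ 1)
    (hc : ∀ i j, aeval (l i j) (F i j) = 0 ∨ constantCoeff (aeval (l i j) (F i j)) ≠ 0) :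
    BB (Real.log (3 / 2)) (Real.log (3 / 2) * (w + 1) / w)
      (bc (2 * (w * k + k)) (2 * (w * k))
        (aeval (fun i => ∏ j, aeval (l i j) (F i j)) Q))
      (Real.exp (-(15 / 8 * Real.log (3 / 2) * k) +
        72 * Real.sqrt ((p * (2 * (w * k + k) + 2 * (w * k)) : ℕ) : ℝ))) := by
  choose c y z hy hz hlc using fun i j a => hAf Y Z K (l i j a) (hl i j a)
  let G : Fin p → Fin D → MvPolynomial (Fin r ⊕ Fin r) K := fun i j =>
    aeval (fun a => C (c i j a) + (X (Sum.inl a) + X (Sum.inr a))) (F i j)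
  have hG : ∀ i j, aeval (Sum.elim (y i j) (z i j)) (G i j) = aeval (l i j) (F i j) := by
    intro i j
    change aeval (Sum.elim (y i j) (z i j)) (aeval _ (F i j)) = _
    rw [← AlgHom.comp_apply, comp_aeval]
    congr 2
    funext a
    rw [map_add, map_add, aeval_X, aeval_X, hlc i j a]
    congr 1
    rw [← algebraMap_eq, AlgHom.commutes]
    rfl
  have hcc : ∀ i j, constantCoeff (aeval (Sum.elim (y i j) (z i j)) (G i j)) =
      constantCoeff (G i j) := by
    intro i j
    refine constantCoeff_aeval _ ?_ _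
    rintro (a | a)
    · exact constantCoeff_isBi (hy i j a) (by norm_num)
    · exact constantCoeff_isBi (hz i j a) (by norm_num)
  have hG0 : ∀ i, (∀ j, constantCoeff (G i j) ≠ 0) ∨
      ∏ j, aeval (Sum.elim (y i j) (z i j)) (G i j) = 0 := by
    intro i
    by_cases h : ∃ j, aeval (l i j) (F i j) = 0
    · obtain ⟨j, hj⟩ := h
      right
      refine Finset.prod_eq_zero (Finset.mem_univ j) ?_
      rw [hG, hj]
    · push Not at h
      left
      intro j
      rw [← hcc, hG]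
      exact (hc i j).resolve_left (h j)
  have h := up_multi hU.h1 hU.h2 hU.h4 hU.h5 hU.h6 hU.h7 hU.h8 hU.h9 Y Z K w k t p D r Q G y z
    hp hD hr hk ht hDr hG0 hy hz
  have h2 : (fun i => ∏ j, aeval (Sum.elim (y i j) (z i j)) (G i j)) =
      fun i => ∏ j, aeval (l i j) (F i j) := by
    funext i
    exact Finset.prod_congr rfl fun j _ => hG i j
  rw [h2] at h
  exact h

variable (hProj : S_Proj) (hU : UpFacts) (hAf : S_Affine) (hTr : S_Transl) (hTT : S_TransTop)
  (hBH : S_BiHom) (hSm : S_BBsmul)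

include hProj hU hAf hTr hTT hBH hSm in
/-- Upper bound for the functional `BB` of the hard polynomial. -/
theorem upper_multi (k : Type) [Field k] [CharZero k] (N S p D r w kk t : ℕ)
    (Q : Fin S → MvPolynomial (Fin p) (LaurentSeries k))
    (F : Fin S → Fin p → Fin D → MvPolynomial (Fin r) (LaurentSeries k))
    (l : Fin S → Fin p → Fin D → Fin r → MvPolynomial (Fin N × Fin N) (LaurentSeries k))
    (hl : ∀ i b j a, (l i b j a).totalDegree ≤ 1)
    (R : MvPolynomial (Fin N × Fin N) (PowerSeries k))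
    (h : ∑ i, aeval (fun b => ∏ j, aeval (l i b j) (F i b j)) (Q i) =
      MvPolynomial.map (algebraMap (PowerSeries k) (LaurentSeries k))
        (permP (PowerSeries k) N + C PowerSeries.X * R))
    (hp : 1 ≤ p) (hD : 1 ≤ D) (hr : 1 ≤ r) (hk : 1 ≤ kk) (ht : 32 * t ≤ w)
    (hDr : 4000 * (Real.log D + r) ≤ t) (hN : 4 * (2 * (w * kk) + kk) ≤ N) :
    ∃ R' : MvPolynomial ((CY (w * kk) kk × CY (w * kk) kk) ⊕ (CZ (w * kk) × CZ (w * kk)))
        (PowerSeries k),
      BB (Real.log (3 / 2)) (Real.log (3 / 2) * (w + 1) / w)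
        (MvPolynomial.map (algebraMap (PowerSeries k) (LaurentSeries k))
          (PC (PowerSeries k) (w * kk) kk + C PowerSeries.X * R'))
        (S * Real.exp (-(15 / 8 * Real.log (3 / 2) * kk) +
          72 * Real.sqrt ((p * (2 * (w * kk + kk) + 2 * (w * kk)) : ℕ) : ℝ))) := by
  classical
  set φ := algebraMap (PowerSeries k) (LaurentSeries k) with hφ
  have := charZero_laurent k
  obtain ⟨n, hn⟩ : ∃ n, n = w * kk := ⟨_, rfl⟩
  rw [← hn] at hN ⊢
  obtain ⟨A, hA, hperm⟩ := hProj (MvPolynomial ((CY n kk × CY n kk) ⊕ (CZ n × CZ n))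
    (PowerSeries k)) n kk N (fun i j => X (Sum.inl (i, j))) (fun i j => X (Sum.inr (i, j))) hN
  rw [PC_prod] at hperm
  let g1 : Fin N × Fin N → MvPolynomial ((CY n kk × CY n kk) ⊕ (CZ n × CZ n)) (PowerSeries k) :=
    fun p => A p.1 p.2
  let θ1 : Fin N × Fin N → MvPolynomial ((CY n kk × CY n kk) ⊕ (CZ n × CZ n)) (LaurentSeries k) :=
    fun p => MvPolynomial.map φ (g1 p)
  have hθ1 : ∀ p, (θ1 p).totalDegree ≤ 1 := by
    intro p
    rcases hA p.1 p.2 with h | h | h | ⟨a, b, h⟩ | ⟨a, b, h⟩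
    · have : θ1 p = 0 := by simp [θ1, g1, h]
      rw [this]; simp
    · have : θ1 p = 1 := by simp [θ1, g1, h]
      rw [this]; simp
    · have : θ1 p = C (-1) := by simp [θ1, g1, h]
      rw [this, totalDegree_C]; exact Nat.zero_le _
    · have : θ1 p = X (Sum.inl (a, b)) := by simp [θ1, g1, h]
      rw [this, totalDegree_X]
    · have : θ1 p = X (Sum.inr (a, b)) := by simp [θ1, g1, h]
      rw [this, totalDegree_X]
  -- the value of the permanent
  have h2 : aeval g1 (permP (PowerSeries k) N) = A.permanent := by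
    unfold permP
    have := map_permanent' (aeval g1 : MvPolynomial (Fin N × Fin N) (PowerSeries k)
      →ₐ[PowerSeries k] MvPolynomial _ (PowerSeries k)).toRingHom
      (Matrix.of fun i j => (X (i, j) : MvPolynomial (Fin N × Fin N) (PowerSeries k)))
    simp only [AlgHom.toRingHom_eq_coe, RingHom.coe_coe, Matrix.of_apply, aeval_X] at this
    rw [this]
    rfl
  -- the constant
  obtain ⟨c0, hc0, hc0u⟩ : ∃ c0 : k, c0 ≠ 0 ∧ A.permanent =
      C (PowerSeries.C c0) * PC (PowerSeries k) n kk := by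
    refine ⟨(-1) ^ n * 4 ^ n, ?_, ?_⟩
    · exact mul_ne_zero (pow_ne_zero _ (by norm_num)) (pow_ne_zero _ (by norm_num))
    · rw [hperm]
      congr 1
      simp only [map_mul, map_pow, map_neg, map_one]
      congr 2
  -- translation
  let L' : Fin S → Fin p → Fin D → Fin r → MvPolynomial ((CY n kk × CY n kk) ⊕ (CZ n × CZ n))
      (LaurentSeries k) := fun i b j a => aeval θ1 (l i b j a)
  let V : Fin S → Fin p → Fin D → MvPolynomial ((CY n kk × CY n kk) ⊕ (CZ n × CZ n))
      (LaurentSeries k) := fun i b j => aeval (L' i b j) (F i b j)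
  let en : (Fin S × Fin p × Fin D) ≃ Fin (Fintype.card (Fin S × Fin p × Fin D)) :=
    Fintype.equivFin _
  obtain ⟨x, hx⟩ := hTr _ k (Fintype.card (Fin S × Fin p × Fin D))
    (fun q => V (en.symm q).1 (en.symm q).2.1 (en.symm q).2.2)
  let trP : ((CY n kk × CY n kk) ⊕ (CZ n × CZ n)) → MvPolynomial _ (PowerSeries k) :=
    fun j => X j + C (PowerSeries.C (x j))
  let tr : ((CY n kk × CY n kk) ⊕ (CZ n × CZ n)) → MvPolynomial _ (LaurentSeries k) :=
    fun j => X j + C (φ (PowerSeries.C (x j)))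
  have htr : tr = fun j => MvPolynomial.map φ (trP j) := by
    funext j
    simp [tr, trP]
  have hx' : ∀ i b j, V i b j ≠ 0 → constantCoeff (aeval tr (V i b j)) ≠ 0 := by
    intro i b j hij
    have h3 := hx (en (i, b, j))
    rw [Equiv.symm_apply_apply] at h3
    exact h3 hij
  have hcomp : ∀ i b j, aeval θ1 (aeval (l i b j) (F i b j)) = V i b j := fun i b j =>
    comp_aeval_apply (l i b j) (aeval θ1 : MvPolynomial (Fin N × Fin N) (LaurentSeries k)
        →ₐ[LaurentSeries k] _) (F i b j)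
  have hcomp2 : ∀ i b j, aeval tr (V i b j) =
      aeval (fun a => aeval tr (L' i b j a)) (F i b j) := fun i b j =>
    comp_aeval_apply (L' i b j) (aeval tr : MvPolynomial _ (LaurentSeries k)
        →ₐ[LaurentSeries k] _) (F i b j)
  have hV : ∑ i, aeval (fun b => ∏ j, V i b j) (Q i) =
      MvPolynomial.map φ (C (PowerSeries.C c0) *
      PC (PowerSeries k) n kk + C PowerSeries.X * aeval g1 R) := by
    have h3 : aeval θ1 (∑ i, aeval (fun b => ∏ j, aeval (l i b j) (F i b j)) (Q i)) =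
        ∑ i, aeval (fun b => ∏ j, V i b j) (Q i) := by
      rw [map_sum]
      refine Finset.sum_congr rfl fun i _ => ?_
      rw [comp_aeval_apply]
      congr 2
      funext b
      rw [map_prod]
      exact Finset.prod_congr rfl fun j _ => hcomp i b j
    rw [← h3, h, show θ1 = fun p => MvPolynomial.map φ (g1 p) from rfl, aeval_map_map,
      aeval_lin, h2, hc0u]
  -- scale and translate
  refine ⟨bc (2 * (n + kk)) (2 * n) (aeval trP (C (PowerSeries.C c0⁻¹) * aeval g1 R)), ?_⟩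
  have hkey : MvPolynomial.map φ (PC (PowerSeries k) n kk + C PowerSeries.X *
      bc (2 * (n + kk)) (2 * n) (aeval trP (C (PowerSeries.C c0⁻¹) * aeval g1 R))) =
      ∑ i, C (φ (PowerSeries.C c0⁻¹)) * bc (2 * (n + kk)) (2 * n)
        (aeval tr (aeval (fun b => ∏ j, V i b j) (Q i))) := by
    have h4 := bc_gen hTT hBH (fun j => (PowerSeries.C (x j) : PowerSeries k))
      (PC (PowerSeries k) n kk) (C (PowerSeries.C c0⁻¹) * aeval g1 R) PowerSeries.X
      (2 * (n + kk)) (2 * n) (PC_isBi _ n kk)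
    rw [← h4, ← Finset.mul_sum, ← bc_sum, ← map_sum, hV, ← bc_map, ← aeval_map_map]
    have h5 : (fun j => MvPolynomial.map φ (X j + C (PowerSeries.C (x j)))) = tr := htr.symm
    rw [h5, ← bc_C_mul]
    congr 1
    have h6 : C (φ (PowerSeries.C c0⁻¹)) = aeval tr
        (C (φ (PowerSeries.C c0⁻¹)) : MvPolynomial _ (LaurentSeries k)) := by
      rw [← algebraMap_eq, AlgHom.commutes]
    rw [h6, ← map_mul]
    congr 1
    rw [show (C (φ (PowerSeries.C c0⁻¹)) : MvPolynomial ((CY n kk × CY n kk) ⊕ (CZ n × CZ n))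
        (LaurentSeries k)) = MvPolynomial.map φ (C (PowerSeries.C c0⁻¹)) from (map_C φ _).symm,
      ← map_mul]
    congr 1
    have h10 : (C (PowerSeries.C c0⁻¹) : MvPolynomial ((CY n kk × CY n kk) ⊕ (CZ n × CZ n))
        (PowerSeries k)) * C (PowerSeries.C c0) = 1 := by
      rw [← C_mul, ← map_mul, inv_mul_cancel₀ hc0, map_one, C_1]
    linear_combination (-(PC (PowerSeries k) n kk)) * h10
  rw [hkey]
  refine BB_fin_sum _ fun i => hSm _ _ _ _ _ _ _ _ ?_
  have h7 : aeval tr (aeval (fun b => ∏ j, V i b j) (Q i)) =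
      aeval (fun b => ∏ j, aeval (fun a => aeval tr (L' i b j a)) (F i b j)) (Q i) := by
    rw [comp_aeval_apply]
    congr 2
    funext b
    rw [map_prod]
    exact Finset.prod_congr rfl fun j _ => hcomp2 i b j
  rw [h7]
  subst hn
  refine term_multi hU hAf (LaurentSeries k) w kk t p D r (Q i) (F i) _ hp hD hr hk ht hDr ?_ ?_
  · intro b j a
    refine CircSubst_deg 1 tr (fun p => totalDegree_trans_X _ _) _ ?_
    exact CircSubst_deg 1 θ1 hθ1 _ (hl i b j a)
  · intro b j
    rw [← hcomp2]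
    by_cases h8 : V i b j = 0
    · left
      rw [h8, map_zero]
    · right
      exact hx' i b j h8

variable (hRR : S_RankR) (hRK : S_RankK) (hBr : S_BBrank)

include hProj hU hAf hTr hTT hBH hSm hRR hRK hBr in
/-- The main inequality for given parameters. -/
theorem ineq_multi (k : Type) [Field k] [CharZero k] (N S p D r w kk t : ℕ)
    (Q : Fin S → MvPolynomial (Fin p) (LaurentSeries k))
    (F : Fin S → Fin p → Fin D → MvPolynomial (Fin r) (LaurentSeries k))
    (l : Fin S → Fin p → Fin D → Fin r → MvPolynomial (Fin N × Fin N) (LaurentSeries k))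
    (hl : ∀ i b j a, (l i b j a).totalDegree ≤ 1)
    (R : MvPolynomial (Fin N × Fin N) (PowerSeries k))
    (h : ∑ i, aeval (fun b => ∏ j, aeval (l i b j) (F i b j)) (Q i) =
      MvPolynomial.map (algebraMap (PowerSeries k) (LaurentSeries k))
        (permP (PowerSeries k) N + C PowerSeries.X * R))
    (hp : 1 ≤ p) (hD : 1 ≤ D) (hr : 1 ≤ r) (hk : 1 ≤ kk) (ht : 32 * t ≤ w)
    (hDr : 4000 * (Real.log D + r) ≤ t) (hN : 4 * (2 * (w * kk) + kk) ≤ N) :
    1 ≤ S ∧ Real.log (3 / 2) / 8 * kk ≤ Real.log S +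
      72 * Real.sqrt ((p * (2 * (w * kk + kk) + 2 * (w * kk)) : ℕ) : ℝ) +
      Real.log (1000 * ((2 * (w * kk + kk) + 1 : ℕ) : ℝ) ^ 6) := by
  classical
  have hlogD : 0 ≤ Real.log D := Real.log_nonneg (by exact_mod_cast hD)
  have hrR : (1 : ℝ) ≤ r := by exact_mod_cast hr
  have htR : (1 : ℝ) ≤ t := by linarith
  have ht1 : 1 ≤ t := by exact_mod_cast htR
  have hw : 32 ≤ w := by omega
  have hwR : (32 : ℝ) ≤ w := by exact_mod_cast hw
  have hal : 0 < Real.log (3 / 2 : ℝ) := Real.log_pos (by norm_num)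
  obtain ⟨R', hBB⟩ := upper_multi hProj hU hAf hTr hTT hBH hSm k N S p D r w kk t Q F l hl R h
    hp hD hr hk ht hDr hN
  obtain ⟨m, hm⟩ : ∃ m, m = w * kk + kk := ⟨_, rfl⟩
  obtain ⟨E, hE⟩ : ∃ E : ℝ, E = Real.exp (-(15 / 8 * Real.log (3 / 2) * kk) +
    72 * Real.sqrt ((p * (2 * (w * kk + kk) + 2 * (w * kk)) : ℕ) : ℝ)) := ⟨_, rfl⟩
  rw [← hE] at hBB
  have hwk : 32 ≤ w * kk := by nlinarith
  have hm1 : 33 ≤ m := by omega
  obtain ⟨L, hL⟩ : ∃ L, L + 2 * m = 2 * ((2 * m) ^ 2 - 1) := by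
    refine ⟨2 * ((2 * m) ^ 2 - 1) - 2 * m, Nat.sub_add_cancel ?_⟩
    have : 2 * m + 1 ≤ (2 * m) ^ 2 := by nlinarith
    omega
  obtain ⟨be, hbe⟩ : ∃ be : ℝ, be = Real.log (3 / 2) * (w + 1) / w := ⟨_, rfl⟩
  have hbe0 : 0 < be := by rw [hbe]; positivity
  obtain ⟨q, hq1, hq2⟩ := ell ((2 * (w * kk)) ^ 2) be (by nlinarith) hbe0
  rw [hbe] at hq1 hq2
  -- lower bound
  have hlow := hRR w kk L q hw hk (by rw [← hm]; exact hL) (by push_cast at hq1 ⊢; exact hq1)
  have hlow2 := @hRK (CY (w * kk) kk × CY (w * kk) kk) (CZ (w * kk) × CZ (w * kk)) _ _ _ _ k _ _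
    (PC ℤ (w * kk) kk) R' (L + 2 * (w * kk + kk)) q L (q + 2 * (w * kk))
  rw [PC_map, PC_map] at hlow2
  -- upper bound
  have : Nonempty (CY (w * kk) kk × CY (w * kk) kk) :=
    ⟨(Sum.inl (true, ⟨0, by omega⟩), Sum.inl (true, ⟨0, by omega⟩))⟩
  have : Nonempty (CZ (w * kk) × CZ (w * kk)) :=
    ⟨((true, ⟨0, by omega⟩), (true, ⟨0, by omega⟩))⟩
  have hcY : Fintype.card (CY (w * kk) kk × CY (w * kk) kk) = (2 * (w * kk + kk)) ^ 2 := by
    rw [Fintype.card_prod, card_CY, sq]
  have hcZ : Fintype.card (CZ (w * kk) × CZ (w * kk)) = (2 * (w * kk)) ^ 2 := by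
    rw [Fintype.card_prod, card_CZ, sq]
  have hupp := hBr _ _ (LaurentSeries k) _ _ _ _ L q (2 * (w * kk + kk)) (2 * (w * kk)) (by omega)
    (by
      rw [hcY, ← hm, Real.exp_log (by norm_num)]
      have h5 : ((L : ℝ) + ((2 * m : ℕ) : ℝ)) = 2 * (((2 * m : ℕ) : ℝ) ^ 2 - 1) := by
        have h6 : ((L + 2 * m : ℕ) : ℝ) = ((2 * ((2 * m) ^ 2 - 1) : ℕ) : ℝ) := by rw [hL]
        rw [Nat.cast_add, Nat.cast_mul 2 ((2 * m) ^ 2 - 1), Nat.cast_sub (Nat.one_le_pow _ _
          (by omega)), Nat.cast_pow] at h6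
        push_cast at h6 ⊢
        exact h6
      rw [h5]
      have h7 : (66 : ℝ) ≤ ((2 * m : ℕ) : ℝ) := by exact_mod_cast (by omega : 66 ≤ 2 * m)
      have h8 : (1 : ℝ) < ((2 * m : ℕ) : ℝ) ^ 2 := by nlinarith
      rw [le_div_iff₀ (by linarith)]
      push_cast
      linarith)
    (by rw [hcZ]; exact hq2) hBB
  rw [hcY, hcZ] at hupp
  have hexp0 : Real.exp (-(((2 * (w * kk + kk) : ℕ) : ℝ) * Real.log (3 / 2) -
      ((2 * (w * kk) : ℕ) : ℝ) * (Real.log (3 / 2) * (w + 1) / w)) / 2) = 1 := by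
    rw [Real.exp_eq_one_iff]
    have hw0 : (w : ℝ) ≠ 0 := by positivity
    push_cast
    field_simp
    ring
  rw [hexp0, mul_one] at hupp
  obtain ⟨T, hT⟩ : ∃ T : ℝ, T = (TT ((2 * (w * kk + kk)) ^ 2) (L + 2 * (w * kk + kk)) : ℝ) *
    TT ((2 * (w * kk)) ^ 2) q := ⟨_, rfl⟩
  have hTpos : 0 < T := by
    rw [hT]
    apply mul_pos
    · exact_mod_cast TT_pos (Nat.one_le_pow _ _ (by omega))
    · exact_mod_cast TT_pos (Nat.one_le_pow _ _ (by omega))
  obtain ⟨X, hX⟩ : ∃ X : ℝ, X = 1000 * ((2 * (w * kk + kk) + 1 : ℕ) : ℝ) ^ 6 := ⟨_, rfl⟩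
  have hXpos : 0 < X := by rw [hX]; positivity
  rw [← hT, ← hX] at hlow
  rw [← hT] at hupp
  have hEpos : 0 < E := by rw [hE]; exact Real.exp_pos _
  have h9 : T ≤ T * (S * E) * (X * Real.exp (7 / 4 * Real.log (3 / 2) * kk)) := by
    refine hlow.trans ?_
    apply mul_le_mul_of_nonneg_right _ (by positivity)
    exact (Nat.cast_le.mpr hlow2).trans hupp
  have h10 : 1 ≤ (S * E) * (X * Real.exp (7 / 4 * Real.log (3 / 2) * kk)) := by
    rw [mul_assoc] at h9
    exact le_of_mul_le_mul_left (by linarith) hTpos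
  have hS : 1 ≤ S := by
    by_contra hcon
    have : S = 0 := by omega
    rw [this] at h10
    norm_num at h10
  refine ⟨hS, ?_⟩
  have hSpos : (0 : ℝ) < S := by exact_mod_cast (by omega : 0 < S)
  have h11 := Real.log_le_log one_pos h10
  rw [Real.log_one, Real.log_mul (by positivity) (by positivity), Real.log_mul (by positivity)
    (by positivity), Real.log_mul (by positivity) (by positivity), Real.log_exp, hE,
    Real.log_exp, hX] at h11
  linarith

include hProj hU hAf hTr hTT hBH hSm hRR hRK hBr in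
/-- The lower bound for sums of polynomials in `p` products. -/
theorem main_multi (k : Type) [Field k] [CharZero k] (N S p D r : ℕ)
    (Q : Fin S → MvPolynomial (Fin p) (LaurentSeries k))
    (F : Fin S → Fin p → Fin D → MvPolynomial (Fin r) (LaurentSeries k))
    (l : Fin S → Fin p → Fin D → Fin r → MvPolynomial (Fin N × Fin N) (LaurentSeries k))
    (hl : ∀ i b j a, (l i b j a).totalDegree ≤ 1)
    (R : MvPolynomial (Fin N × Fin N) (PowerSeries k))
    (h : ∑ i, aeval (fun b => ∏ j, aeval (l i b j) (F i b j)) (Q i) =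
      MvPolynomial.map (algebraMap (PowerSeries k) (LaurentSeries k))
        (permP (PowerSeries k) N + C PowerSeries.X * R))
    (hp : 1 ≤ p) (hD : 1 ≤ D) (hr : 1 ≤ r) :
    (N : ℝ) / 10 ^ 10 ≤ (Real.log S + Real.sqrt ((p : ℝ) * N)) * (Real.log D + r) := by
  have hlogD : 0 ≤ Real.log D := Real.log_nonneg (by exact_mod_cast hD)
  have hrR : (1 : ℝ) ≤ r := by exact_mod_cast hr
  have hlog : Real.log S = Real.log (max (S : ℝ) 1) := by
    rcases Nat.eq_zero_or_pos S with h0 | h0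
    · rw [h0]; simp
    · rw [max_eq_left]
      exact_mod_cast h0
  rw [hlog]
  refine num_multi N p (max (S : ℝ) 1) (Real.log D + r) _ _ _ hp (le_max_right _ _)
    (by linarith) rfl rfl rfl fun hk => ?_
  have h1 := ineq_multi hProj hU hAf hTr hTT hBH hSm hRR hRK hBr k N S p D r _ _ _ Q F l hl R h
    hp hD hr hk le_rfl (Nat.le_ceil _) (by
      have h2 := Nat.div_mul_le_self N (4 * (2 * (32 * ⌈4000 * (Real.log D + r)⌉₊) + 1))
      refine le_trans (le_of_eq ?_) h2
      ring)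
  rw [← hlog]
  exact h1.2

end Pool.Agent.Work.MP_499dc6_lc.D3
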