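import Mathlib
import Pool.Agent.Work.MP_499dc6_lc.D3.FinalMulti
import Pool.Agent.Work.MP_499dc6_lc.Bd.B04
import Pool.Agent.Work.MP_499dc6_lc.Bd.B10
import Pool.Agent.Work.MP_499dc6_lc.Bd.B09
import Pool.Agent.Work.MP_499dc6_lc.Bd.B03

/-!
# Depth three circuits for the permanent: the main theorem
-/

namespace Pool.Agent.Work.MP_499dc6_lc.D3

open MvPolynomial
open Pool.Agent.Work.MP_499dc6_lc.CD

theorem all_ASum : S_ASum := pr_ASum pr_Mass (pr_HypSum pr_Hyp) pr_FBound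

theorem all_GSum : S_GSum := pr_GSum pr_Cnt pr_Int pr_BSum all_ASum

theorem all_RankR : S_RankR :=
  pr_RankR pr_Trace pr_RectE (pr_Rect pr_Grow1) pr_Struct pr_Shift pr_Pattern all_GSum
    pr_CodeCard pr_Grow3

theorem all_Proj : S_Proj := pr_Proj pr_GadCancel pr_GadBij

theorem all_Up : UpFacts :=
  ⟨pr_LogBi pr_BcMul pr_BcAeval, pr_Span2, pr_FacBB, pr_BiBB, pr_TypeSum, pr_Large, pr_TypeS,
    pr_TypeL⟩

/-- The lower bound. -/
theorem main (k : Type) [Field k] [CharZero k] (N S p D r : ℕ)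
    (Q : Fin S → MvPolynomial (Fin p) (LaurentSeries k))
    (F : Fin S → Fin p → Fin D → MvPolynomial (Fin r) (LaurentSeries k))
    (l : Fin S → Fin p → Fin D → Fin r → MvPolynomial (Fin N × Fin N) (LaurentSeries k))
    (hl : ∀ i b j a, (l i b j a).totalDegree ≤ 1)
    (R : MvPolynomial (Fin N × Fin N) (PowerSeries k))
    (h : ∑ i, aeval (fun b => ∏ j, aeval (l i b j) (F i b j)) (Q i) =
      MvPolynomial.map (algebraMap (PowerSeries k) (LaurentSeries k))
        (permP (PowerSeries k) N + C PowerSeries.X * R))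
    (hp : 1 ≤ p) (hD : 1 ≤ D) (hr : 1 ≤ r) :
    (N : ℝ) / 10 ^ 10 ≤ (Real.log S + Real.sqrt ((p : ℝ) * N)) * (Real.log D + r) :=
  main_multi all_Proj all_Up pr_Affine pr_Transl pr_TransTop pr_BiHom pr_BBsmul all_RankR
    (pr_RankK pr_Minor) (pr_BBrank pr_MatMul pr_MatZero pr_Grow1 pr_Grow2 pr_BiMul)
    k N S p D r Q F l hl R h hp hD hr

end Pool.Agent.Work.MP_499dc6_lc.D3
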